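import Pool.Agent.Lib.H58T.Main1

/-!
# MP_da76ea_co: connected opaque sets of the unit square
-/

open MeasureTheory Set
open scoped ENNReal

namespace Pool.Agent.Results.MP_da76ea_co.Connected

/-- Let `B` be a connected set in the Euclidean plane which is contained, up to a set of
one-dimensional Hausdorff measure zero, in a countable union of curves of finite length, and which
meets every straight line that meets the unit square. Then the one-dimensional Hausdorff measure of
`B` is at least `1 + √3`. -/
theorem result (B : Set (EuclideanSpace ℝ (Fin 2))) (hc : IsPreconnected B)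
    (γ : ℕ → ℝ → EuclideanSpace ℝ (Fin 2))
    (hγ : ∀ n, eVariationOn (γ n) (Icc 0 1) ≠ ∞)
    (hB : μH[1] (B \ ⋃ n, γ n '' Icc 0 1) = 0)
    (hop : ∀ a c d : ℝ, (a ≠ 0 ∨ c ≠ 0) →
      (∃ x ∈ Icc (0 : ℝ) 1, ∃ y ∈ Icc (0 : ℝ) 1, a * x + c * y = d) →
        ∃ p ∈ B, a * p 0 + c * p 1 = d) :
    ENNReal.ofReal (1 + √3) ≤ μH[1] B :=
  H58T.main1_of H58T.world1 B hc γ hγ hB hop

end Pool.Agent.Results.MP_da76ea_co.Connected
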