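import Pool.Agent.Lib.H58Q.A10
import Pool.Agent.Lib.H58Q.Top

/-!
# MP_da76ea_co: opaque sets of the unit square have length at least 2.033
-/

open MeasureTheory Set
open scoped ENNReal

namespace Pool.Agent.Results.MP_da76ea_co.LengthBound

/-- Let `B` be a set in the Euclidean plane which is contained, up to a set of one-dimensional
Hausdorff measure zero, in a countable union of curves of finite length, and which meets every
straight line that meets the unit square. Then its one-dimensional Hausdorff measure is at least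
`2.033`. -/
theorem result (B : Set (EuclideanSpace ℝ (Fin 2))) (γ : ℕ → ℝ → EuclideanSpace ℝ (Fin 2))
    (hγ : ∀ n, eVariationOn (γ n) (Icc 0 1) ≠ ∞)
    (hB : μH[1] (B \ ⋃ n, γ n '' Icc 0 1) = 0)
    (hop : ∀ a c d : ℝ, (a ≠ 0 ∨ c ≠ 0) →
      (∃ x ∈ Icc (0 : ℝ) 1, ∃ y ∈ Icc (0 : ℝ) 1, a * x + c * y = d) →
        ∃ p ∈ B, a * p 0 + c * p 1 = d) :
    ENNReal.ofReal (2033 / 1000) ≤ μH[1] B :=
  H58Q.A10 H58Q.core B γ hγ hB hop

end Pool.Agent.Results.MP_da76ea_co.LengthBound
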