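import Pool.Agent.Lib.H58T.Main2

/-!
# MP_da76ea_co: opaque sets of the unit square with at most two connected components
-/

open MeasureTheory Set
open scoped ENNReal

namespace Pool.Agent.Results.MP_da76ea_co.TwoComponents

/-- Let `B₁`, `B₂` be connected sets in the Euclidean plane (one or both may be empty) such that
`B₁ ∪ B₂` is contained, up to a set of one-dimensional Hausdorff measure zero, in a countable union
of curves of finite length, and meets every straight line that meets the unit square. Then the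
one-dimensional Hausdorff measure of `B₁ ∪ B₂` is at least `(2 + √3) / √2`. -/
theorem result (B₁ B₂ : Set (EuclideanSpace ℝ (Fin 2))) (h₁ : IsPreconnected B₁)
    (h₂ : IsPreconnected B₂) (γ : ℕ → ℝ → EuclideanSpace ℝ (Fin 2))
    (hγ : ∀ n, eVariationOn (γ n) (Icc 0 1) ≠ ∞)
    (hB : μH[1] ((B₁ ∪ B₂) \ ⋃ n, γ n '' Icc 0 1) = 0)
    (hop : ∀ a c d : ℝ, (a ≠ 0 ∨ c ≠ 0) →
      (∃ x ∈ Icc (0 : ℝ) 1, ∃ y ∈ Icc (0 : ℝ) 1, a * x + c * y = d) →
        ∃ p ∈ B₁ ∪ B₂, a * p 0 + c * p 1 = d) :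
    ENNReal.ofReal ((2 + √3) / √2) ≤ μH[1] (B₁ ∪ B₂) :=
  H58T.main2_of H58T.world2 B₁ B₂ h₁ h₂ γ hγ hB hop

end Pool.Agent.Results.MP_da76ea_co.TwoComponents
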